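import Pool.Agent.Q84.UW.Cmb

set_option autoImplicit false
set_option linter.unusedSectionVars false

/-!
Project UW (helper180), job UPOW: products of abelian varieties with complex multiplication by a CM
field, with a determinant form of given weights.
-/

namespace Pool.Agent.Q84.UW

open Polynomial Pool.Agent.H204R3.CM Pool.Agent.Q180.UW
open Pool.Agent.Q60.D3 (AV IsHom IsCM HasWeight conjF)

/-! ### Products -/

/-- the period map of the product -/
noncomputable def piPer {k : ℕ} (B : Fin k → AV) : (∀ c, (B c).H) →+ (∀ c, (B c).T) where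
  toFun v a := (B a).per (v a)
  map_zero' := by
    funext a
    exact (B a).per.map_zero
  map_add' v w := by
    funext a
    exact (B a).per.map_add _ _

theorem piPer_apply {k : ℕ} (B : Fin k → AV) (v : ∀ c, (B c).H) (a : Fin k) :
    piPer B v a = (B a).per (v a) := rfl

theorem span_piPer {k : ℕ} (B : Fin k → AV) :
    Submodule.span ℝ (Set.range (piPer B)) = ⊤ := by
  rw [eq_top_iff]
  intro u _
  have h1 : u = ∑ a : Fin k, Pi.single a (u a) := (Finset.univ_sum_single u).symm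
  rw [h1]
  refine Submodule.sum_mem _ fun a _ => ?_
  have h2 : u a ∈ Submodule.span ℝ (Set.range (B a).per) := by
    rw [(B a).span]
    exact Submodule.mem_top
  have h3 := Submodule.mem_map_of_mem (f := LinearMap.single ℝ (fun c : Fin k => (B c).T) a) h2
  rw [Submodule.map_span] at h3
  refine Submodule.span_mono ?_ h3
  rintro _ ⟨_, ⟨w, rfl⟩, rfl⟩
  refine ⟨Pi.single a w, ?_⟩
  funext c
  rw [piPer_apply, LinearMap.coe_single]
  by_cases h : c = a
  · subst h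
    rw [Pi.single_eq_same, Pi.single_eq_same]
  · rw [Pi.single_eq_of_ne h, Pi.single_eq_of_ne h, map_zero]

theorem pol_piPer {k : ℕ} (B : Fin k → AV) : ∃ F : (∀ c, (B c).T) → (∀ c, (B c).T) → ℂ,
    (∀ u', IsLinearMap ℂ fun u => F u u') ∧ (∀ u u', F u' u = starRingEnd ℂ (F u u')) ∧
    (∀ u, u ≠ 0 → 0 < (F u u).re) ∧
    ∀ v w, ∃ q : ℚ, (F (piPer B v) (piPer B w)).im = q := by
  choose F h1 h2 h3 h4 using fun c => (B c).pol
  refine ⟨fun u v => ∑ a, F a (u a) (v a), fun u' => ⟨fun x y => ?_, fun c x => ?_⟩,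
    fun u u' => ?_, fun u hu => ?_, fun v w => ?_⟩
  · rw [← Finset.sum_add_distrib]
    exact Finset.sum_congr rfl fun a _ => (h1 a (u' a)).map_add (x a) (y a)
  · rw [Finset.smul_sum]
    exact Finset.sum_congr rfl fun a _ => (h1 a (u' a)).map_smul c (x a)
  · rw [map_sum]
    exact Finset.sum_congr rfl fun a _ => h2 a (u a) (u' a)
  · have e0 : ∀ c a, 0 ≤ (F c a a).re := by
      intro c a
      by_cases ha : a = 0
      · have h : F c 0 a = 0 := (h1 c a).map_zero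
        rw [ha] at h ⊢
        rw [h, Complex.zero_re]
      · exact (h3 c a ha).le
    rw [Complex.re_sum]
    obtain ⟨a, ha⟩ := Function.ne_iff.1 hu
    exact Finset.sum_pos' (fun a _ => e0 a _) ⟨a, Finset.mem_univ a, h3 a _ ha⟩
  · choose q hq using fun a => h4 a (v a) (w a)
    refine ⟨∑ a, q a, ?_⟩
    rw [Complex.im_sum, Rat.cast_sum]
    exact Finset.sum_congr rfl fun a _ => hq a

/-- The product of abelian varieties. -/
noncomputable def piAV {k : ℕ} (B : Fin k → AV) : AV where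
  H := ∀ c, (B c).H
  T := ∀ c, (B c).T
  per := piPer B
  span := span_piPer B
  dim := by
    rw [Module.finrank_pi_fintype, Module.finrank_pi_fintype, Finset.mul_sum]
    exact Finset.sum_congr rfl fun c _ => (B c).dim
  pol := pol_piPer B

/-! ### Determinants of coordinates -/

section

variable {H : Type} [AddCommGroup H] [Module ℚ H]

/-- a linear form as an alternating form of degree one -/
noncomputable def alt1 (f : H →ₗ[ℚ] ℂ) : H [⋀^Fin 1]→ₗ[ℚ] ℂ :=
  AlternatingMap.ofSubsingleton ℚ H ℂ 0 f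

theorem alt1_apply (f : H →ₗ[ℚ] ℂ) (v : Fin 1 → H) : alt1 f v = f (v 0) := rfl

/-- the determinant of the coordinates `ℓ` -/
noncomputable def detG (n : ℕ) (ℓ : Fin n → (H →ₗ[ℚ] ℂ)) : H [⋀^Fin n]→ₗ[ℚ] ℂ where
  toMultilinearMap :=
    ((Matrix.detRowAlternating : (Fin n → ℂ) [⋀^Fin n]→ₗ[ℂ] ℂ).toMultilinearMap.restrictScalars
      ℚ).compLinearMap fun _ => LinearMap.pi ℓ
  map_eq_zero_of_eq' v i j h hij := by
    change (Matrix.detRowAlternating : (Fin n → ℂ) [⋀^Fin n]→ₗ[ℂ] ℂ)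
      (fun a => LinearMap.pi ℓ (v a)) = 0
    exact AlternatingMap.map_eq_zero_of_eq _ _ (by rw [h]) hij

theorem detG_apply (n : ℕ) (ℓ : Fin n → (H →ₗ[ℚ] ℂ)) (y : Fin n → H) :
    detG n ℓ y = (Matrix.of fun a c : Fin n => ℓ c (y a)).det := rfl

theorem detG_eig {n : ℕ} (ℓ : Fin n → (H →ₗ[ℚ] ℂ)) (φ : H →ₗ[ℚ] H) (μ : ℂ)
    (h0 : ∀ c (x : H), ℓ c (φ x) = μ * ℓ c x) (v : Fin n → H) (a : Fin n) :
    detG n ℓ (Function.update v a (φ (v a))) = μ * detG n ℓ v := by
  rw [detG_apply, detG_apply]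
  have h1 : (Matrix.of fun b c : Fin n => ℓ c (Function.update v a (φ (v a)) b)) =
      Matrix.updateRow (Matrix.of fun b c : Fin n => ℓ c (v b)) a
        (μ • (Matrix.of fun b c : Fin n => ℓ c (v b)) a) := by
    ext b c
    by_cases h : b = a
    · subst h
      rw [Matrix.updateRow_self, Matrix.of_apply, Function.update_self]
      exact h0 c (v b)
    · rw [Matrix.updateRow_ne h, Matrix.of_apply, Function.update_of_ne h]
      rfl
  rw [h1, Matrix.det_updateRow_smul, Matrix.updateRow_eq_self]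

end

theorem lin_of_weight {H T : Type} [AddCommGroup H] [Module ℚ H] [AddCommGroup T] [Module ℂ T]
    {per : H →+ T} {f : H →ₗ[ℚ] ℂ} {w : ℤ}
    (h : ∀ F : MultilinearMap ℚ (fun _ : Fin 1 => H) ℂ, (∀ v, F v = f (v 0)) →
      HasWeight per F w) :
    ∃ g : T →ₗ[ℝ] ℂ, (∀ x, g (per x) = f x) ∧ ∀ z : ℂ, ‖z‖ = 1 → ∀ u, g (z • u) = z ^ w * g u := by
  obtain ⟨ψ, h1, h2⟩ := h (alt1 f).toMultilinearMap fun _ => rfl
  exact ⟨(MultilinearMap.ofSubsingleton ℝ T ℂ (0 : Fin 1)).symm ψ, fun x => h1 fun _ => x,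
    fun z hz u => h2 z hz fun _ => u⟩

/-- the weight of a determinant of coordinates -/
theorem detG_weight {H T : Type} [AddCommGroup H] [Module ℚ H] [AddCommGroup T] [Module ℂ T]
    {per : H →+ T} {n : ℕ} (ℓ : Fin n → (H →ₗ[ℚ] ℂ)) (w : Fin n → ℤ) (g : Fin n → (T →ₗ[ℝ] ℂ))
    (hg : ∀ c x, g c (per x) = ℓ c x)
    (hz : ∀ c (z : ℂ), ‖z‖ = 1 → ∀ u, g c (z • u) = z ^ w c * g c u)
    (F : MultilinearMap ℚ (fun _ : Fin n => H) ℂ)
    (hF : ∀ y, F y = (Matrix.of fun a c : Fin n => ℓ c (y a)).det) :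
    HasWeight per F (∑ c, w c) := by
  refine ⟨((Matrix.detRowAlternating :
      (Fin n → ℂ) [⋀^Fin n]→ₗ[ℂ] ℂ).toMultilinearMap.restrictScalars ℝ).compLinearMap
        fun _ => LinearMap.pi g, fun v => ?_, fun z hz1 u => ?_⟩
  · rw [hF]
    change (Matrix.of fun a c : Fin n => g c (per (v a))).det = _
    congr 1
    ext a c
    exact hg c (v a)
  · change (Matrix.of fun a c : Fin n => g c (z • u a)).det =
        z ^ (∑ c, w c) * (Matrix.of fun a c : Fin n => g c (u a)).det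
    have h3 : (Matrix.of fun a c : Fin n => g c (z • u a)) =
        Matrix.of fun a c => (z ^ w c) * (Matrix.of fun a c : Fin n => g c (u a)) a c := by
      ext a c
      exact hz c z hz1 (u a)
    have hz0 : z ≠ 0 := by
      rintro rfl
      rw [norm_zero] at hz1
      exact zero_ne_one hz1
    rw [h3, Matrix.det_mul_row]
    congr 1
    have h4 : ∀ s : Finset (Fin n), z ^ (∑ c ∈ s, w c) = ∏ c ∈ s, z ^ w c := by
      classical
      intro s
      induction s using Finset.induction_on with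
      | empty => rw [Finset.sum_empty, Finset.prod_empty, zpow_zero]
      | insert c s hc ih => rw [Finset.sum_insert hc, Finset.prod_insert hc, zpow_add₀ hz0, ih]
    exact (h4 Finset.univ).symm

theorem sum_det {k l : ℕ} (M : Matrix (Fin k ⊕ Fin l) (Fin k ⊕ Fin l) ℂ) :
    (∑ σ : Equiv.Perm (Fin k ⊕ Fin l), ((Equiv.Perm.sign σ : ℤ) : ℂ) *
      ((Matrix.of fun a c : Fin k => M (σ (Sum.inl a)) (Sum.inl c)).det *
        (Matrix.of fun a c : Fin l => M (σ (Sum.inr a)) (Sum.inr c)).det)) =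
      ((Nat.factorial k : ℕ) : ℂ) * ((Nat.factorial l : ℕ) : ℂ) * M.det := by
  have h1 : ∀ σ : Equiv.Perm (Fin k ⊕ Fin l), ((Equiv.Perm.sign σ : ℤ) : ℂ) *
      ((Matrix.of fun a c : Fin k => M (σ (Sum.inl a)) (Sum.inl c)).det *
        (Matrix.of fun a c : Fin l => M (σ (Sum.inr a)) (Sum.inr c)).det) =
      ∑ τ : Equiv.Perm (Fin k), ∑ τ' : Equiv.Perm (Fin l),
        (((Equiv.Perm.sign (σ * Equiv.Perm.sumCongr τ τ') : ℤ) : ℂ) *
          ∏ r, M ((σ * Equiv.Perm.sumCongr τ τ') r) r) := by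
    intro σ
    rw [Matrix.det_apply', Matrix.det_apply', Finset.sum_mul_sum, Finset.mul_sum]
    refine Finset.sum_congr rfl fun τ _ => ?_
    rw [Finset.mul_sum]
    refine Finset.sum_congr rfl fun τ' _ => ?_
    rw [Fintype.prod_sum_type, Equiv.Perm.sign_mul, Equiv.Perm.sign_sumCongr]
    simp only [Matrix.of_apply, Equiv.Perm.coe_mul, Function.comp_apply,
      Equiv.sumCongr_apply, Sum.map_inl, Sum.map_inr, Units.val_mul, Int.cast_mul]
    ring
  rw [Finset.sum_congr rfl fun σ _ => h1 σ, Finset.sum_comm]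
  have h2 : ∀ τ : Equiv.Perm (Fin k), (∑ σ : Equiv.Perm (Fin k ⊕ Fin l),
      ∑ τ' : Equiv.Perm (Fin l), (((Equiv.Perm.sign (σ * Equiv.Perm.sumCongr τ τ') : ℤ) : ℂ) *
          ∏ r, M ((σ * Equiv.Perm.sumCongr τ τ') r) r)) = ((Nat.factorial l : ℕ) : ℂ) * M.det := by
    intro τ
    rw [Finset.sum_comm]
    have h3 : ∀ τ' : Equiv.Perm (Fin l), (∑ σ : Equiv.Perm (Fin k ⊕ Fin l),
        (((Equiv.Perm.sign (σ * Equiv.Perm.sumCongr τ τ') : ℤ) : ℂ) *
          ∏ r, M ((σ * Equiv.Perm.sumCongr τ τ') r) r)) = M.det := by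
      intro τ'
      rw [Matrix.det_apply']
      exact Fintype.sum_equiv (Equiv.mulRight (Equiv.Perm.sumCongr τ τ')) _ _ fun σ => rfl
    rw [Finset.sum_congr rfl fun τ' _ => h3 τ', Finset.sum_const, Finset.card_univ,
      Fintype.card_perm, Fintype.card_fin, nsmul_eq_mul]
  rw [Finset.sum_congr rfl fun τ _ => h2 τ, Finset.sum_const, Finset.card_univ,
    Fintype.card_perm, Fintype.card_fin, nsmul_eq_mul, mul_assoc]

/-! ### The roots -/

theorem roots_card {e : ℕ} {P : ℚ[X]} (hirr : Irreducible P) (hdeg : P.natDegree = e) :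
    ∃ R : Finset ℂ, (∀ ν, ν ∈ R ↔ aeval ν P = 0) ∧ R.card = e := by
  classical
  refine ⟨(P.aroots ℂ).toFinset, fun ν => ?_, ?_⟩
  · rw [Multiset.mem_toFinset, mem_aroots]
    exact ⟨fun h => h.2, fun h => ⟨hirr.ne_zero, h⟩⟩
  · rw [Multiset.toFinset_card_of_nodup, IsAlgClosed.card_aroots_eq_natDegree, hdeg]
    exact nodup_roots (hirr.separable.map)

/-- the CM types -/
theorem exists_types {k : ℕ} {μ : ℂ} {s : (ℂ ≃+* ℂ) → ℤ} {P : ℚ[X]}
    (hP : ∀ ν : ℂ, aeval ν P = 0 → starRingEnd ℂ ν ≠ ν)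
    (hs1 : ∀ σ τ : ℂ ≃+* ℂ, σ μ = τ μ → s σ = s τ)
    (hs2 : ∀ σ τ : ℂ ≃+* ℂ, τ μ = starRingEnd ℂ (σ μ) → s τ = -s σ)
    (hs3 : ∀ σ, ∃ p : ℕ, s σ = 2 * (p : ℤ) - k ∧ p ≤ k) (hμ : aeval μ P = 0) :
    ∃ ε : Fin k → ℂ → ℤ, (∀ c ν, ε c ν = 1 ∨ ε c ν = -1) ∧
      (∀ c (ν : ℂ), aeval ν P = 0 → ε c (starRingEnd ℂ ν) = -ε c ν) ∧
      ∀ σ : ℂ ≃+* ℂ, ∑ c, ε c (σ μ) = s σ := by
  classical
  have hS : ∀ ν : ℂ, ∃ p : ℕ, p ≤ k ∧ ∀ σ : ℂ ≃+* ℂ, σ μ = ν → s σ = 2 * (p : ℤ) - k := by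
    intro ν
    by_cases h : ∃ σ : ℂ ≃+* ℂ, σ μ = ν
    · obtain ⟨σ, hσ⟩ := h
      obtain ⟨p, hp1, hp2⟩ := hs3 σ
      exact ⟨p, hp2, fun τ hτ => by rw [hs1 τ σ (by rw [hτ, hσ]), hp1]⟩
    · exact ⟨0, Nat.zero_le _, fun σ hσ => absurd ⟨σ, hσ⟩ h⟩
  choose p hpk hp using hS
  refine ⟨fun c ν => if 0 < ν.im then (if (c : ℕ) < p ν then 1 else -1) else
    if ν.im < 0 then (if (c : ℕ) < p (starRingEnd ℂ ν) then -1 else 1) else 1, ?_, ?_, ?_⟩
  · intro c ν
    dsimp only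
    split_ifs <;> simp
  · intro c ν hν
    have h0 : ν.im ≠ 0 := by
      intro h
      apply hP ν hν
      apply Complex.ext
      · rw [Complex.conj_re]
      · rw [Complex.conj_im, h, neg_zero]
    dsimp only
    rw [Complex.conj_im, Complex.conj_conj]
    rcases lt_or_gt_of_ne h0 with h | h
    · rw [if_pos (show 0 < -ν.im by linarith), if_neg (show ¬ 0 < ν.im by linarith), if_pos h]
      split_ifs <;> simp
    · rw [if_neg (show ¬ 0 < -ν.im by linarith), if_pos (show -ν.im < 0 by linarith), if_pos h]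
      split_ifs <;> simp
  · intro σ
    have hcount : ∀ q : ℕ, q ≤ k → ∑ c : Fin k, (if (c : ℕ) < q then (1 : ℤ) else -1) =
        2 * (q : ℤ) - k := by
      intro q hq
      have h1 : (Finset.univ.filter fun c : Fin k => (c : ℕ) < q).card = q := by
        rw [← Fintype.card_subtype]
        have e1 : Fintype.card {c : Fin k // (c : ℕ) < q} = Fintype.card (Fin q) :=
          Fintype.card_congr
            { toFun := fun c => ⟨c.1, c.2⟩
              invFun := fun c => ⟨⟨c.1, lt_of_lt_of_le c.2 hq⟩, c.2⟩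
              left_inv := fun c => rfl
              right_inv := fun c => rfl }
        rw [e1, Fintype.card_fin]
      have h2 := Finset.card_filter_add_card_filter_not (s := (Finset.univ : Finset (Fin k)))
        (fun c : Fin k => (c : ℕ) < q)
      rw [h1, Finset.card_univ, Fintype.card_fin] at h2
      rw [Finset.sum_ite, Finset.sum_const, Finset.sum_const, h1]
      simp only [nsmul_eq_mul]
      omega
    have h0 : (σ μ).im ≠ 0 := by
      intro h
      have h1 : aeval (σ μ) P = 0 := by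
        have h3 : aeval (σ μ) P = σ (aeval μ P) :=
          aeval_algHom_apply (σ : ℂ →+* ℂ).toRatAlgHom μ P
        rw [h3, hμ, map_zero]
      apply hP _ h1
      apply Complex.ext
      · rw [Complex.conj_re]
      · rw [Complex.conj_im, h, neg_zero]
    dsimp only
    rcases lt_or_gt_of_ne h0 with h | h
    · simp only [if_neg (not_lt.2 h.le), if_pos h]
      have h1 : ∀ c : Fin k, (if (c : ℕ) < p (starRingEnd ℂ (σ μ)) then (-1 : ℤ) else 1) =
          -(if (c : ℕ) < p (starRingEnd ℂ (σ μ)) then (1 : ℤ) else -1) := by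
        intro c
        split_ifs <;> simp
      simp only [h1]
      rw [Finset.sum_neg_distrib, hcount _ (hpk _)]
      have h2 := hp (starRingEnd ℂ (σ μ)) (σ.trans (starRingAut : ℂ ≃+* ℂ)) rfl
      rw [← h2, hs2 σ _ rfl, neg_neg]
    · simp only [if_pos h]
      rw [hcount _ (hpk _)]
      exact (hp (σ μ) σ rfl).symm

theorem aeval_pi {k : ℕ} {H : Fin k → Type} [∀ c, AddCommGroup (H c)] [∀ c, Module ℚ (H c)]
    (ψ : ∀ c, H c →ₗ[ℚ] H c) (Q : ℚ[X]) (w : ∀ c, H c) (c : Fin k) :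
    (aeval (LinearMap.pi fun c => ψ c ∘ₗ LinearMap.proj c : (∀ c, H c) →ₗ[ℚ] (∀ c, H c)) Q) w c =
      (aeval (ψ c) Q) (w c) := by
  have hpow : ∀ (i : ℕ) (w : ∀ c, H c), (((LinearMap.pi fun c => ψ c ∘ₗ LinearMap.proj c :
      (∀ c, H c) →ₗ[ℚ] (∀ c, H c)) ^ i : Module.End ℚ (∀ c, H c)) w) c = (ψ c ^ i) (w c) := by
    intro i
    induction i with
    | zero =>
      intro w
      rw [pow_zero, pow_zero]
      rfl
    | succ i ih =>
      intro w
      rw [pow_succ, pow_succ]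
      exact ih _
  rw [aeval_eq_sum_range, aeval_eq_sum_range, LinearMap.sum_apply, LinearMap.sum_apply,
    Finset.sum_apply]
  refine Finset.sum_congr rfl fun i _ => ?_
  rw [LinearMap.smul_apply, LinearMap.smul_apply, Pi.smul_apply, hpow]

theorem sum_types {P : ℚ[X]} {R : Finset ℂ} (hR : ∀ ν, ν ∈ R ↔ aeval ν P = 0) {ε : ℂ → ℤ}
    (hε : ∀ ν : ℂ, aeval ν P = 0 → ε (starRingEnd ℂ ν) = -ε ν) (σ : ℂ ≃+* ℂ) :
    ∑ ν ∈ R, ε (σ ν) = 0 := by
  have hσR : ∀ (σ : ℂ ≃+* ℂ) (ν : ℂ), ν ∈ R → σ ν ∈ R := by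
    intro σ ν hν
    rw [hR] at hν ⊢
    have h3 : aeval (σ ν) P = σ (aeval ν P) :=
      aeval_algHom_apply (σ : ℂ →+* ℂ).toRatAlgHom ν P
    rw [h3, hν, map_zero]
  have h1 : ∀ σ : ℂ ≃+* ℂ, ∑ ν ∈ R, ε (σ ν) = ∑ ν ∈ R, ε ν := by
    intro σ
    refine Finset.sum_bij' (fun ν _ => σ ν) (fun ν _ => σ.symm ν) (fun ν hν => hσR σ ν hν)
      (fun ν hν => hσR σ.symm ν hν) (fun ν _ => σ.symm_apply_apply ν)
      (fun ν _ => σ.apply_symm_apply ν) (fun ν _ => rfl)
  have h2 := h1 (starRingAut : ℂ ≃+* ℂ)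
  have h3 : ∑ ν ∈ R, ε ((starRingAut : ℂ ≃+* ℂ) ν) = -∑ ν ∈ R, ε ν := by
    rw [← Finset.sum_neg_distrib]
    exact Finset.sum_congr rfl fun ν hν => hε ν ((hR ν).1 hν)
  rw [h1]
  omega

/-- **Job UPOW.** -/
theorem pow : S_pow := by
  classical
  intro 𝒲 𝒞 e P hCM h𝒞 μ hμ k hk s hs1 hs2 hs3
  obtain ⟨hirr, hdeg, r, hr⟩ := id hCM
  obtain ⟨R, hR, hRc⟩ := roots_card hirr hdeg
  obtain ⟨ε, hε1, hε2, hε3⟩ := exists_types (k := k) (fun ν hν => (hr ν hν).1) hs1 hs2 hs3 hμ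
  choose B ψ γ hB1 hB2 hB3 hB4 hB5 hB6 hB7 using fun c => cmb' e P hCM (ε c) (hε1 c) (hε2 c)
  have hμR : μ ∈ R := (hR μ).2 hμ
  have hσR : ∀ (σ : ℂ ≃+* ℂ) (ν : ℂ), ν ∈ R → σ ν ∈ R := by
    intro σ ν hν
    rw [hR] at hν ⊢
    have h3 : aeval (σ ν) P = σ (aeval ν P) :=
      aeval_algHom_apply (σ : ℂ →+* ℂ).toRatAlgHom ν P
    rw [h3, hν, map_zero]
  -- the data of the coordinates
  have hInC : ∀ c, InC 𝒞 (B c) := fun c => ⟨B c, LinearMap.id, hB2 c, h𝒞 _ (hB2 c) (hB1 c),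
    ⟨LinearMap.id, fun w => rfl⟩, Function.bijective_id⟩
  have hItm : ∀ (c : Fin k) (ν : ℂ), ν ∈ R → ∃ L : Itm 𝒲 𝒞 (B c) 1,
      (∀ x, (L.δ fun _ => x) = γ c ν x) ∧ ∀ σ, L.s σ = ε c (σ ν) := by
    intro c ν hν
    refine ⟨⟨alt1 (γ c ν), fun σ => ε c (σ ν), fun σ => ?_, Or.inl ⟨rfl, hInC c⟩⟩, fun x => rfl,
      fun σ => rfl⟩
    refine (hB5 c (σ ν) ((hR _).1 (hσR σ ν hν))).2.2 _ fun v => ?_
    exact (hB5 c ν ((hR _).1 hν)).2.1 σ (v 0)
  -- the other coordinates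
  obtain ⟨k', hk'⟩ : ∃ k', k' = Fintype.card (Fin k × {ν : ℂ // ν ∈ R.erase μ}) := ⟨_, rfl⟩
  have hcard : Fintype.card (Fin k × {ν : ℂ // ν ∈ R.erase μ}) = k * (e - 1) := by
    rw [Fintype.card_prod, Fintype.card_fin, Fintype.card_coe, Finset.card_erase_of_mem hμR, hRc]
  have he : 0 < e := by
    rw [← hRc]
    exact Finset.card_pos.2 ⟨μ, hμR⟩
  have hkk : k + k' = k * e := by
    rw [hk', hcard]
    obtain ⟨e', rfl⟩ : ∃ e', e = e' + 1 := ⟨e - 1, by omega⟩
    rw [Nat.add_sub_cancel]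
    ring
  obtain ⟨eq⟩ : Nonempty (Fin k' ≃ Fin k × {ν : ℂ // ν ∈ R.erase μ}) := by
    rw [hk']
    exact ⟨(Fintype.equivFin _).symm⟩
  have heqR : ∀ j, ((eq j).2 : ℂ) ∈ R := fun j => Finset.mem_of_mem_erase (eq j).2.2
  choose L hL1 hL2 using fun c => hItm c μ hμR
  choose L' hL'1 hL'2 using fun j => hItm (eq j).1 (eq j).2 (heqR j)
  -- the basis
  have hfr : Module.finrank ℚ (piAV B).H = k + k' := by
    rw [hkk]
    change Module.finrank ℚ (∀ c, (B c).H) = _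
    rw [Module.finrank_pi_fintype, Finset.sum_congr rfl fun c _ => (B c).dim.trans (hB1 c),
      Finset.sum_const, Finset.card_univ, Fintype.card_fin, smul_eq_mul]
  obtain ⟨b⟩ : Nonempty (Module.Basis (Fin k ⊕ Fin k') ℚ (piAV B).H) :=
    ⟨(Module.finBasisOfFinrankEq ℚ (piAV B).H hfr).reindex finSumFinEquiv.symm⟩
  -- weights of the coordinates
  choose g hg1 hg2 using fun (c : Fin k) (ν : R) =>
    lin_of_weight (per := (B c).per) (f := γ c ν) (w := ε c ν)
      fun F hF => (hB5 c ν ((hR _).1 ν.2)).2.2 F hF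
  refine ⟨k', piAV B, LinearMap.pi fun c => ψ c ∘ₗ LinearMap.proj c,
    detG k (fun c => γ c μ ∘ₗ (LinearMap.proj c : (∀ c, (B c).H) →ₗ[ℚ] (B c).H)),
    detG k' (fun j => γ (eq j).1 (eq j).2 ∘ₗ
      (LinearMap.proj (eq j).1 : (∀ c, (B c).H) →ₗ[ℚ] (B (eq j).1).H)), b, B,
    fun c => LinearMap.proj c, L, fun j => B (eq j).1, fun j => LinearMap.proj (eq j).1, L',
    ?_, ?_, ?_, ?_, ?_, ?_, hInC, fun c => ⟨LinearMap.proj c, fun w => rfl⟩, fun j => hInC _,
    fun j => ⟨LinearMap.proj (eq j).1, fun w => rfl⟩, ?_, ?_, ?_, ?_, ?_⟩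
  · choose C hC using hB3
    refine ⟨LinearMap.pi fun c => C c ∘ₗ LinearMap.proj c, fun w => ?_⟩
    funext c
    exact hC c (w c)
  · ext w
    funext c
    change (aeval (LinearMap.pi fun c => ψ c ∘ₗ LinearMap.proj c :
      (∀ c, (B c).H) →ₗ[ℚ] (∀ c, (B c).H)) P) w c = 0
    rw [aeval_pi, hB4]
    rfl
  · rw [← (piAV B).dim, hfr, hkk, mul_comm]
  · intro v a
    exact detG_eig _ _ μ (fun c x => (hB5 c μ hμ).1 (x c)) v a
  · intro σ
    rw [← hε3 σ]
    refine detG_weight (fun c => γ c (σ μ) ∘ₗ (LinearMap.proj c : (∀ c, (B c).H) →ₗ[ℚ] (B c).H))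
      (fun c => ε c (σ μ)) (fun c => g c ⟨σ μ, hσR σ μ hμR⟩ ∘ₗ LinearMap.proj c)
      (fun c x => hg1 c _ (x c)) (fun c z hz u => hg2 c _ z hz (u c)) _ fun y => ?_
    change σ ((Matrix.of fun a c : Fin k => γ c μ (y a c)).det) =
      (Matrix.of fun a c : Fin k => γ c (σ μ) (y a c)).det
    have h1 : σ ((Matrix.of fun a c : Fin k => γ c μ (y a c)).det) =
        ((σ : ℂ →+* ℂ).mapMatrix (Matrix.of fun a c : Fin k => γ c μ (y a c))).det :=
      RingHom.map_det (σ : ℂ →+* ℂ) _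
    rw [h1]
    congr 1
    ext a c
    exact (hB5 c μ hμ).2.1 σ (y a c)
  · -- the CM part
    refine ⟨B ⟨0, hk⟩, ψ ⟨0, hk⟩, LinearMap.single ℚ (fun c => (B c).H) ⟨0, hk⟩, hB1 _, hB3 _,
      ⟨LinearMap.single ℂ (fun c => (B c).T) ⟨0, hk⟩, fun w => ?_⟩, ?_, fun w => ?_⟩
    · funext c
      change (Pi.single _ ((B ⟨0, hk⟩).per w) : ∀ c, (B c).T) c =
        (B c).per ((Pi.single _ w : ∀ c, (B c).H) c)
      by_cases h : c = ⟨0, hk⟩
      · subst h
        rw [Pi.single_eq_same, Pi.single_eq_same]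
      · rw [Pi.single_eq_of_ne h, Pi.single_eq_of_ne h, map_zero]
    · intro h
      have h1 : 0 < Module.finrank ℚ (B ⟨0, hk⟩).H := by
        rw [(B ⟨0, hk⟩).dim, hB1]
        exact he
      obtain ⟨x, hx⟩ := Module.finrank_pos_iff_exists_ne_zero.1 h1
      have h3 : (Pi.single ⟨0, hk⟩ x : ∀ c, (B c).H) ⟨0, hk⟩ = 0 :=
        congrFun (LinearMap.congr_fun h x) ⟨0, hk⟩
      rw [Pi.single_eq_same] at h3
      exact hx h3
    · funext c
      change (Pi.single _ (ψ ⟨0, hk⟩ w) : ∀ c, (B c).H) c =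
        ψ c ((Pi.single _ w : ∀ c, (B c).H) c)
      by_cases h : c = ⟨0, hk⟩
      · subst h
        rw [Pi.single_eq_same, Pi.single_eq_same]
      · rw [Pi.single_eq_of_ne h, Pi.single_eq_of_ne h, map_zero]
  · intro σ
    rw [← hε3 σ]
    exact Finset.sum_congr rfl fun c _ => hL2 c σ
  · intro σ
    rw [Finset.sum_congr rfl fun j _ => hL'2 j σ,
      Equiv.sum_comp eq (fun x : Fin k × {ν : ℂ // ν ∈ R.erase μ} => ε x.1 (σ x.2)),
      Fintype.sum_prod_type, ← hε3 σ, ← Finset.sum_neg_distrib]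
    refine Finset.sum_congr rfl fun c _ => ?_
    dsimp only
    rw [Finset.sum_coe_sort (R.erase μ) (fun ν => ε c (σ ν))]
    have h1 := sum_types hR (hε2 c) σ
    rw [← Finset.add_sum_erase R (fun ν => ε c (σ ν)) hμR] at h1
    omega
  · intro y
    rw [detG_apply]
    congr 1
    ext a c
    exact (hL1 c (y a c)).symm
  · intro y
    rw [detG_apply]
    congr 1
    ext a j
    exact (hL'1 j (y a (eq j).1)).symm
  · -- the determinant of all coordinates
    obtain ⟨M, hM⟩ : ∃ M : Matrix (Fin k ⊕ Fin k') (Fin k ⊕ Fin k') ℂ,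
        M = Matrix.of fun r c => Sum.elim (fun c => γ c μ ((b r : ∀ c, (B c).H) c))
          (fun j => γ (eq j).1 (eq j).2 ((b r : ∀ c, (B c).H) (eq j).1)) c := ⟨_, rfl⟩
    have h2 := sum_det M
    refine ne_of_eq_of_ne ?_ (ne_of_eq_of_ne h2 ?_)
    · rw [hM]
      rfl
    refine mul_ne_zero (mul_ne_zero ?_ ?_) ?_
    · exact_mod_cast Nat.factorial_ne_zero k
    · exact_mod_cast Nat.factorial_ne_zero k'
    intro hdet
    obtain ⟨v, hv0, hv⟩ := Matrix.exists_mulVec_eq_zero_iff.2 hdet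
    apply hv0
    obtain ⟨Λ, hΛ⟩ : ∃ Λ : (∀ c, (B c).H) →ₗ[ℚ] ℂ, ∀ w, Λ w =
        ∑ c, v (Sum.inl c) * γ c μ (w c) +
          ∑ j, v (Sum.inr j) * γ (eq j).1 (eq j).2 (w (eq j).1) :=
      ⟨∑ c, LinearMap.mulLeft ℚ (v (Sum.inl c)) ∘ₗ γ c μ ∘ₗ LinearMap.proj c +
        ∑ j, LinearMap.mulLeft ℚ (v (Sum.inr j)) ∘ₗ γ (eq j).1 (eq j).2 ∘ₗ
          LinearMap.proj (eq j).1, fun w => by
        rw [LinearMap.add_apply, LinearMap.sum_apply, LinearMap.sum_apply]
        rfl⟩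
    have hΛ0 : Λ = 0 := by
      refine b.ext fun r => ?_
      have h3 := congrFun hv r
      rw [Matrix.mulVec, dotProduct, Fintype.sum_sum_type, hM] at h3
      refine (hΛ _).trans ?_
      change _ = (0 : ℂ)
      refine Eq.trans ?_ h3
      congr 1
      · exact Finset.sum_congr rfl fun c _ => mul_comm _ _
      · exact Finset.sum_congr rfl fun c _ => mul_comm _ _
    have hV : ∀ c0 : Fin k, ∀ ν ∈ R, (if h : ν ∈ R.erase μ then
        v (Sum.inr (eq.symm (c0, ⟨ν, h⟩))) else v (Sum.inl c0)) = 0 := by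
      intro c0
      refine hB7 c0 R _ (fun ν hν => (hR ν).1 hν) fun w0 => ?_
      have h3 := hΛ (Pi.single c0 w0)
      rw [hΛ0, LinearMap.zero_apply] at h3
      rw [← Finset.add_sum_erase R _ hμR, dif_neg (Finset.notMem_erase μ R)]
      refine Eq.trans ?_ h3.symm
      congr 1
      · rw [Finset.sum_eq_single c0]
        · rw [Pi.single_eq_same]
        · intro c _ hc
          rw [Pi.single_eq_of_ne hc, map_zero, mul_zero]
        · intro h
          exact absurd (Finset.mem_univ _) h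
      · obtain ⟨G, hG⟩ : ∃ G : Fin k × {ν : ℂ // ν ∈ R.erase μ} → ℂ, G = fun x =>
            v (Sum.inr (eq.symm x)) * γ x.1 x.2 ((Pi.single c0 w0 : ∀ c, (B c).H) x.1) := ⟨_, rfl⟩
        have h4 : ∀ j, v (Sum.inr j) * γ (eq j).1 (eq j).2
            ((Pi.single c0 w0 : ∀ c, (B c).H) (eq j).1) = G (eq j) := by
          intro j
          rw [hG]
          dsimp only
          rw [eq.symm_apply_apply]
        rw [Finset.sum_congr rfl fun j _ => h4 j, Equiv.sum_comp eq G, hG, Fintype.sum_prod_type,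
          Finset.sum_eq_single c0]
        · rw [← Finset.sum_coe_sort (R.erase μ)]
          refine Finset.sum_congr rfl fun ν _ => ?_
          dsimp only
          rw [dif_pos ν.2, Pi.single_eq_same]
        · intro c _ hc
          refine Finset.sum_eq_zero fun ν _ => ?_
          dsimp only
          rw [Pi.single_eq_of_ne hc, map_zero, mul_zero]
        · intro h
          exact absurd (Finset.mem_univ _) h
    funext x
    rcases x with c | j
    · have h3 := hV c μ hμR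
      rw [dif_neg (Finset.notMem_erase μ R)] at h3
      exact h3
    · have h3 := hV (eq j).1 (eq j).2 (heqR j)
      rw [dif_pos (eq j).2.2] at h3
      have h4 : ((eq j).1, (⟨((eq j).2 : ℂ), (eq j).2.2⟩ : {ν : ℂ // ν ∈ R.erase μ})) = eq j := rfl
      rw [h4, eq.symm_apply_apply] at h3
      exact h3

end Pool.Agent.Q84.UW
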