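import Pool.Agent.Q180.UW.StmG

set_option autoImplicit false
set_option linter.unusedSectionVars false

/-!
Project UW (helper180), job UCMB: abelian varieties with complex multiplication of a given CM type.
-/

namespace Pool.Agent.Q84.UW

open Polynomial Pool.Agent.H204R3.CM Pool.Agent.Q180.UW
open Pool.Agent.Q60.D3 (AV IsHom IsCM HasWeight)

section

variable {E : Type} [Field E] [Algebra ℚ E] [FiniteDimensional ℚ E]

/-- interpolation by a real polynomial in `θ` -/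
theorem interp {θ : E} (hθ : ∀ φ φ' : E →ₐ[ℚ] ℂ, φ θ = φ' θ → φ = φ') {c : E →ₐ[ℚ] E}
    (hc : ∀ (φ : E →ₐ[ℚ] ℂ) (x : E), φ (c x) = starRingEnd ℂ (φ x)) (f : (E →ₐ[ℚ] ℂ) → ℂ)
    (hf : ∀ φ, f (φ.comp c) = starRingEnd ℂ (f φ)) :
    ∃ (n : ℕ) (b : ℕ → ℝ), ∀ φ : E →ₐ[ℚ] ℂ,
      ∑ k ∈ Finset.range n, ((b k : ℝ) : ℂ) * φ (θ ^ k) = f φ := by
  classical
  obtain ⟨q, hq⟩ : ∃ q : ℂ[X], ∀ φ : E →ₐ[ℚ] ℂ, q.eval (φ θ) = f φ :=
    ⟨Lagrange.interpolate (Finset.univ : Finset (E →ₐ[ℚ] ℂ)) (fun φ => φ θ) f, fun φ =>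
      Lagrange.eval_interpolate_at_node f (v := fun φ : E →ₐ[ℚ] ℂ => φ θ)
        (fun a _ b _ h => hθ a b h) (Finset.mem_univ φ)⟩
  refine ⟨q.natDegree + 1, fun k => (q.coeff k).re, fun φ => ?_⟩
  have h1 : ∑ k ∈ Finset.range (q.natDegree + 1), q.coeff k * φ (θ ^ k) = f φ := by
    rw [← hq φ, Polynomial.eval_eq_sum_range]
    exact Finset.sum_congr rfl fun k _ => by rw [map_pow]
  have h2 : ∑ k ∈ Finset.range (q.natDegree + 1), starRingEnd ℂ (q.coeff k) * φ (θ ^ k) = f φ := by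
    have h3 : f φ = starRingEnd ℂ (f (φ.comp c)) := by
      rw [hf, Complex.conj_conj]
    rw [h3, ← hq (φ.comp c), Polynomial.eval_eq_sum_range, map_sum]
    refine Finset.sum_congr rfl fun k _ => ?_
    simp only [map_mul, map_pow, AlgHom.comp_apply, hc, Complex.conj_conj]
  have h3 : ∀ k, (((q.coeff k).re : ℝ) : ℂ) = (q.coeff k + starRingEnd ℂ (q.coeff k)) / 2 := by
    intro k
    rw [Complex.add_conj]
    push_cast
    ring
  simp only [h3]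
  calc ∑ k ∈ Finset.range (q.natDegree + 1),
        (q.coeff k + starRingEnd ℂ (q.coeff k)) / 2 * φ (θ ^ k)
      = (∑ k ∈ Finset.range (q.natDegree + 1), q.coeff k * φ (θ ^ k) +
        ∑ k ∈ Finset.range (q.natDegree + 1), starRingEnd ℂ (q.coeff k) * φ (θ ^ k)) / 2 := by
        rw [← Finset.sum_add_distrib, Finset.sum_div]
        exact Finset.sum_congr rfl fun k _ => by ring
    _ = f φ := by
        rw [h1, h2]
        ring

/-- an element with prescribed signs of the imaginary parts -/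
theorem exists_im {θ : E} (hθ : ∀ φ φ' : E →ₐ[ℚ] ℂ, φ θ = φ' θ → φ = φ') {c : E →ₐ[ℚ] E}
    (hc : ∀ (φ : E →ₐ[ℚ] ℂ) (x : E), φ (c x) = starRingEnd ℂ (φ x)) {ε : (E →ₐ[ℚ] ℂ) → ℤ}
    (hε : ∀ φ, ε φ = 1 ∨ ε φ = -1) (hεc : ∀ φ, ε (φ.comp c) = -ε φ) :
    ∃ a : E, ∀ φ : E →ₐ[ℚ] ℂ, 0 < (ε φ : ℝ) * (φ a).im := by
  classical
  obtain ⟨n, b, hb⟩ := interp hθ hc (fun φ => Complex.I * (ε φ : ℂ)) (by
    intro φ
    rw [map_mul, Complex.conj_I, hεc, map_intCast]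
    push_cast
    ring)
  obtain ⟨M, hM⟩ : ∃ M : ℝ, M = ∑ φ : E →ₐ[ℚ] ℂ, ∑ k ∈ Finset.range n, ‖φ (θ ^ k)‖ := ⟨_, rfl⟩
  have hM0 : 0 ≤ M := by
    rw [hM]
    exact Finset.sum_nonneg fun _ _ => Finset.sum_nonneg fun _ _ => norm_nonneg _
  have hMφ : ∀ φ : E →ₐ[ℚ] ℂ, ∑ k ∈ Finset.range n, ‖φ (θ ^ k)‖ ≤ M := by
    intro φ
    rw [hM]
    exact Finset.single_le_sum (f := fun φ : E →ₐ[ℚ] ℂ => ∑ k ∈ Finset.range n, ‖φ (θ ^ k)‖)
      (fun _ _ => Finset.sum_nonneg fun _ _ => norm_nonneg _) (Finset.mem_univ φ)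
  obtain ⟨δ, hδ⟩ : ∃ δ : ℝ, δ = 1 / (2 * (M + 1)) := ⟨_, rfl⟩
  have hδ0 : 0 < δ := by rw [hδ]; positivity
  have hr : ∀ x : ℝ, ∃ r : ℚ, |(r : ℝ) - x| < δ := by
    intro x
    obtain ⟨r, h1, h2⟩ := exists_rat_btwn (show x - δ < x by linarith)
    refine ⟨r, ?_⟩
    rw [abs_lt]
    constructor <;> linarith
  choose r hr using hr
  refine ⟨∑ k ∈ Finset.range n, (r (b k)) • θ ^ k, fun φ => ?_⟩
  have h1 : φ (∑ k ∈ Finset.range n, (r (b k)) • θ ^ k) =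
      ∑ k ∈ Finset.range n, ((r (b k) : ℝ) : ℂ) * φ (θ ^ k) := by
    rw [map_sum]
    refine Finset.sum_congr rfl fun k _ => ?_
    rw [map_smul, Algebra.smul_def]
    congr 1
  have h2 : φ (∑ k ∈ Finset.range n, (r (b k)) • θ ^ k) - Complex.I * (ε φ : ℂ) =
      ∑ k ∈ Finset.range n, (((r (b k) : ℝ) - b k : ℝ) : ℂ) * φ (θ ^ k) := by
    rw [h1, ← hb φ, ← Finset.sum_sub_distrib]
    refine Finset.sum_congr rfl fun k _ => ?_
    push_cast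
    ring
  have h3 : ‖φ (∑ k ∈ Finset.range n, (r (b k)) • θ ^ k) - Complex.I * (ε φ : ℂ)‖ < 1 := by
    rw [h2]
    calc ‖∑ k ∈ Finset.range n, (((r (b k) : ℝ) - b k : ℝ) : ℂ) * φ (θ ^ k)‖
        ≤ ∑ k ∈ Finset.range n, δ * ‖φ (θ ^ k)‖ := by
          refine (norm_sum_le _ _).trans (Finset.sum_le_sum fun k _ => ?_)
          rw [norm_mul, Complex.norm_real, Real.norm_eq_abs]
          exact mul_le_mul_of_nonneg_right (hr (b k)).le (norm_nonneg _)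
      _ ≤ δ * M := by
          rw [← Finset.mul_sum]
          exact mul_le_mul_of_nonneg_left (hMφ φ) hδ0.le
      _ ≤ δ * (M + 1) := mul_le_mul_of_nonneg_left (by linarith) hδ0.le
      _ = 1 / 2 := by
          rw [hδ]
          field_simp
      _ < 1 := by norm_num
  have h4 := (Complex.abs_im_le_norm _).trans_lt h3
  rw [Complex.sub_im, Complex.mul_im, Complex.I_re, Complex.I_im, zero_mul, one_mul, zero_add,
    Complex.intCast_re, abs_lt] at h4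
  rcases hε φ with h | h
  · rw [h] at h4 ⊢
    push_cast at h4 ⊢
    linarith [h4.1]
  · rw [h] at h4 ⊢
    push_cast at h4 ⊢
    linarith [h4.2]

/-- the tangent space -/
abbrev TT (ε : (E →ₐ[ℚ] ℂ) → ℤ) : Type := {φ : E →ₐ[ℚ] ℂ // ε φ = 1} → ℂ

/-- the period map -/
noncomputable def perT (ε : (E →ₐ[ℚ] ℂ) → ℤ) : E →+ TT ε where
  toFun w φ := φ.1 w
  map_zero' := by
    funext φ
    exact map_zero φ.1
  map_add' v w := by
    funext φ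
    exact map_add φ.1 v w

theorem perT_apply (ε : (E →ₐ[ℚ] ℂ) → ℤ) (w : E) (φ : {φ : E →ₐ[ℚ] ℂ // ε φ = 1}) :
    perT ε w φ = φ.1 w := rfl

theorem comp_comp {c : E →ₐ[ℚ] E}
    (hc : ∀ (φ : E →ₐ[ℚ] ℂ) (x : E), φ (c x) = starRingEnd ℂ (φ x)) (φ : E →ₐ[ℚ] ℂ) :
    (φ.comp c).comp c = φ := by
  ext x
  rw [AlgHom.comp_apply, AlgHom.comp_apply, hc, hc, Complex.conj_conj]

theorem span_perT {θ : E} (hθ : ∀ φ φ' : E →ₐ[ℚ] ℂ, φ θ = φ' θ → φ = φ') {c : E →ₐ[ℚ] E}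
    (hc : ∀ (φ : E →ₐ[ℚ] ℂ) (x : E), φ (c x) = starRingEnd ℂ (φ x)) {ε : (E →ₐ[ℚ] ℂ) → ℤ}
    (hε : ∀ φ, ε φ = 1 ∨ ε φ = -1) (hεc : ∀ φ, ε (φ.comp c) = -ε φ) :
    Submodule.span ℝ (Set.range (perT ε)) = ⊤ := by
  classical
  rw [eq_top_iff]
  intro u _
  have hc1 : ∀ φ, ε φ ≠ 1 → ε (φ.comp c) = 1 := by
    intro φ h
    rw [hεc, (hε φ).resolve_left h]
    rfl
  have hc2 : ∀ φ, ε φ = 1 → ε (φ.comp c) ≠ 1 := by
    intro φ h
    rw [hεc, h]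
    decide
  obtain ⟨n, b, hb⟩ := interp hθ hc (fun φ => if h : ε φ = 1 then u ⟨φ, h⟩ else
      starRingEnd ℂ (u ⟨φ.comp c, hc1 φ h⟩)) (by
    intro φ
    by_cases h : ε φ = 1
    · have h' := hc2 φ h
      rw [dif_neg h', dif_pos h]
      congr 2
      exact Subtype.ext (comp_comp hc φ)
    · have h' := hc1 φ h
      rw [dif_pos h', dif_neg h, Complex.conj_conj])
  have h1 : u = ∑ k ∈ Finset.range n, (b k) • perT ε (θ ^ k) := by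
    funext φ
    have h2 := hb φ.1
    rw [dif_pos φ.2] at h2
    rw [Finset.sum_apply]
    refine h2.symm.trans (Finset.sum_congr rfl fun k _ => ?_)
    rw [← Complex.coe_smul]
    rfl
  rw [h1]
  exact Submodule.sum_mem _ fun k _ => Submodule.smul_mem _ _ (Submodule.subset_span ⟨_, rfl⟩)

theorem card_eps {c : E →ₐ[ℚ] E}
    (hc : ∀ (φ : E →ₐ[ℚ] ℂ) (x : E), φ (c x) = starRingEnd ℂ (φ x)) {ε : (E →ₐ[ℚ] ℂ) → ℤ}
    (hε : ∀ φ, ε φ = 1 ∨ ε φ = -1) (hεc : ∀ φ, ε (φ.comp c) = -ε φ) :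
    Module.finrank ℚ E = 2 * Fintype.card {φ : E →ₐ[ℚ] ℂ // ε φ = 1} := by
  classical
  rw [← AlgHom.card ℚ E ℂ, Fintype.card_subtype,
    ← Finset.card_univ, ← Finset.card_filter_add_card_filter_not (s := Finset.univ)
      (fun φ : E →ₐ[ℚ] ℂ => ε φ = 1), two_mul]
  congr 1
  symm
  refine Finset.card_bij' (fun φ _ => φ.comp c) (fun φ _ => φ.comp c) ?_ ?_ ?_ ?_
  · intro φ h
    rw [Finset.mem_filter] at h ⊢
    refine ⟨Finset.mem_univ _, ?_⟩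
    rw [hεc, h.2]
    decide
  · intro φ h
    rw [Finset.mem_filter] at h ⊢
    refine ⟨Finset.mem_univ _, ?_⟩
    rw [hεc, (hε φ).resolve_left h.2]
    rfl
  · intro φ _
    exact comp_comp hc φ
  · intro φ _
    exact comp_comp hc φ

theorem pol_perT {θ : E} (hθ : ∀ φ φ' : E →ₐ[ℚ] ℂ, φ θ = φ' θ → φ = φ') {c : E →ₐ[ℚ] E}
    (hc : ∀ (φ : E →ₐ[ℚ] ℂ) (x : E), φ (c x) = starRingEnd ℂ (φ x)) {ε : (E →ₐ[ℚ] ℂ) → ℤ}
    (hε : ∀ φ, ε φ = 1 ∨ ε φ = -1) (hεc : ∀ φ, ε (φ.comp c) = -ε φ) :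
    ∃ F : TT ε → TT ε → ℂ,
    (∀ u', IsLinearMap ℂ fun u => F u u') ∧ (∀ u u', F u' u = starRingEnd ℂ (F u u')) ∧
    (∀ u, u ≠ 0 → 0 < (F u u).re) ∧
    ∀ v w, ∃ q : ℚ, (F (perT ε v) (perT ε w)).im = q := by
  classical
  obtain ⟨a, ha⟩ := exists_im hθ hc hε hεc
  have hpos : ∀ φ : {φ : E →ₐ[ℚ] ℂ // ε φ = 1}, 0 < (φ.1 a).im := by
    intro φ
    have := ha φ.1
    rwa [φ.2, Int.cast_one, one_mul] at this
  refine ⟨fun u v => ∑ φ, (((φ.1 a).im : ℝ) : ℂ) * (u φ * starRingEnd ℂ (v φ)),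
    fun u' => ⟨fun x y => ?_, fun z x => ?_⟩, fun u u' => ?_, fun u hu => ?_, fun v w => ?_⟩
  · rw [← Finset.sum_add_distrib]
    refine Finset.sum_congr rfl fun φ _ => ?_
    rw [Pi.add_apply]
    ring
  · rw [smul_eq_mul, Finset.mul_sum]
    refine Finset.sum_congr rfl fun φ _ => ?_
    rw [Pi.smul_apply, smul_eq_mul]
    ring
  · rw [map_sum]
    refine Finset.sum_congr rfl fun φ _ => ?_
    rw [map_mul, map_mul, Complex.conj_conj, Complex.conj_ofReal]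
    ring
  · rw [Complex.re_sum]
    obtain ⟨φ, hφ⟩ := Function.ne_iff.1 hu
    have h1 : ∀ φ : {φ : E →ₐ[ℚ] ℂ // ε φ = 1},
        ((((φ.1 a).im : ℝ) : ℂ) * (u φ * starRingEnd ℂ (u φ))).re =
          (φ.1 a).im * Complex.normSq (u φ) := by
      intro φ
      rw [Complex.mul_conj, ← Complex.ofReal_mul, Complex.ofReal_re]
    refine Finset.sum_pos' (fun φ _ => ?_) ⟨φ, Finset.mem_univ φ, ?_⟩
    · rw [h1]
      exact mul_nonneg (hpos φ).le (Complex.normSq_nonneg _)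
    · rw [h1]
      exact mul_pos (hpos φ) (Complex.normSq_pos.2 hφ)
  · -- rationality
    obtain ⟨g, hg⟩ : ∃ g : (E →ₐ[ℚ] ℂ) → ℝ, g = fun φ => (φ a).im *
        (φ v * starRingEnd ℂ (φ w)).im := ⟨_, rfl⟩
    obtain ⟨y, hy⟩ : ∃ y : E, y = -((a - c a) * (v * c w - c v * w)) / 4 := ⟨_, rfl⟩
    have hgy : ∀ φ : E →ₐ[ℚ] ℂ, ((g φ : ℝ) : ℂ) = φ y := by
      intro φ
      have e1 : ∀ z : ℂ, ((z.im : ℝ) : ℂ) = (z - starRingEnd ℂ z) / (2 * Complex.I) := by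
        intro z
        rw [Complex.sub_conj]
        push_cast
        field_simp
      rw [hg, hy]
      push_cast
      rw [e1, e1]
      simp only [map_div₀, map_neg, map_mul, map_sub, hc, Complex.conj_conj, map_ofNat]
      have hI : Complex.I * Complex.I = -1 := Complex.I_mul_I
      have hI0 : Complex.I ≠ 0 := Complex.I_ne_zero
      field_simp
      ring_nf
      rw [Complex.I_sq]
      ring
    have hsum : ∑ φ : E →ₐ[ℚ] ℂ, g φ = ((Algebra.trace ℚ E y : ℚ) : ℝ) := by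
      have h1 := trace_eq_sum_embeddings (K := ℚ) (L := E) ℂ (x := y)
      have h2 : ((∑ φ : E →ₐ[ℚ] ℂ, g φ : ℝ) : ℂ) = (((Algebra.trace ℚ E y : ℚ) : ℝ) : ℂ) := by
        rw [Complex.ofReal_sum, Finset.sum_congr rfl fun φ _ => hgy φ, ← h1]
        rfl
      exact Complex.ofReal_injective h2
    have hgc : ∀ φ : E →ₐ[ℚ] ℂ, g (φ.comp c) = g φ := by
      intro φ
      rw [hg]
      simp only [AlgHom.comp_apply, hc, Complex.conj_im, Complex.conj_conj, Complex.mul_im,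
        Complex.conj_re]
      ring
    have hhalf : ∑ φ : E →ₐ[ℚ] ℂ, g φ = 2 * ∑ φ : {φ : E →ₐ[ℚ] ℂ // ε φ = 1}, g φ.1 := by
      rw [← Finset.sum_filter_add_sum_filter_not Finset.univ (fun φ : E →ₐ[ℚ] ℂ => ε φ = 1),
        two_mul]
      have h1 : ∑ φ ∈ Finset.univ.filter (fun φ : E →ₐ[ℚ] ℂ => ε φ = 1), g φ =
          ∑ φ : {φ : E →ₐ[ℚ] ℂ // ε φ = 1}, g φ.1 := by
        rw [← Finset.sum_subtype (Finset.univ.filter (fun φ : E →ₐ[ℚ] ℂ => ε φ = 1))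
          (fun φ => by simp) g]
      rw [h1]
      congr 1
      rw [← h1]
      refine Finset.sum_bij' (fun φ _ => φ.comp c) (fun φ _ => φ.comp c) ?_ ?_ ?_ ?_ ?_
      · intro φ h
        rw [Finset.mem_filter] at h ⊢
        refine ⟨Finset.mem_univ _, ?_⟩
        rw [hεc, (hε φ).resolve_left h.2]
        rfl
      · intro φ h
        rw [Finset.mem_filter] at h ⊢
        refine ⟨Finset.mem_univ _, ?_⟩
        rw [hεc, h.2]
        decide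
      · intro φ _
        exact comp_comp hc φ
      · intro φ _
        exact comp_comp hc φ
      · intro φ _
        exact (hgc φ).symm
    refine ⟨Algebra.trace ℚ E y / 2, ?_⟩
    have h2 : (∑ φ : {φ : E →ₐ[ℚ] ℂ // ε φ = 1}, (((φ.1 a).im : ℝ) : ℂ) *
        (perT ε v φ * starRingEnd ℂ (perT ε w φ))).im = ∑ φ : {φ : E →ₐ[ℚ] ℂ // ε φ = 1}, g φ.1 := by
      rw [Complex.im_sum]
      refine Finset.sum_congr rfl fun φ _ => ?_
      rw [Complex.im_ofReal_mul, hg]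
      rfl
    rw [h2]
    push_cast
    linarith

/-- the abelian variety with complex multiplication -/
noncomputable def cmAV {θ : E} (hθ : ∀ φ φ' : E →ₐ[ℚ] ℂ, φ θ = φ' θ → φ = φ') {c : E →ₐ[ℚ] E}
    (hc : ∀ (φ : E →ₐ[ℚ] ℂ) (x : E), φ (c x) = starRingEnd ℂ (φ x)) {ε : (E →ₐ[ℚ] ℂ) → ℤ}
    (hε : ∀ φ, ε φ = 1 ∨ ε φ = -1) (hεc : ∀ φ, ε (φ.comp c) = -ε φ) : AV where
  H := E
  T := TT ε
  per := perT ε
  span := span_perT hθ hc hε hεc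
  dim := by
    rw [Module.finrank_fintype_fun_eq_card, card_eps hc hε hεc]
  pol := pol_perT hθ hc hε hεc

theorem isHom_mul {θ : E} (hθ : ∀ φ φ' : E →ₐ[ℚ] ℂ, φ θ = φ' θ → φ = φ') {c : E →ₐ[ℚ] E}
    (hc : ∀ (φ : E →ₐ[ℚ] ℂ) (x : E), φ (c x) = starRingEnd ℂ (φ x)) {ε : (E →ₐ[ℚ] ℂ) → ℤ}
    (hε : ∀ φ, ε φ = 1 ∨ ε φ = -1) (hεc : ∀ φ, ε (φ.comp c) = -ε φ) (x : E) :
    IsHom (cmAV hθ hc hε hεc) (cmAV hθ hc hε hεc) (LinearMap.mulLeft ℚ x) := by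
  refine ⟨LinearMap.pi fun φ => (φ.1 x) • LinearMap.proj φ, fun (w : E) => ?_⟩
  funext φ
  change φ.1 x * φ.1 w = φ.1 (x * w)
  rw [map_mul]

theorem isCM_cmAV {θ : E} (hθ : ∀ φ φ' : E →ₐ[ℚ] ℂ, φ θ = φ' θ → φ = φ') {c : E →ₐ[ℚ] E}
    (hc : ∀ (φ : E →ₐ[ℚ] ℂ) (x : E), φ (c x) = starRingEnd ℂ (φ x)) {ε : (E →ₐ[ℚ] ℂ) → ℤ}
    (hε : ∀ φ, ε φ = 1 ∨ ε φ = -1) (hεc : ∀ φ, ε (φ.comp c) = -ε φ) :
    IsCM (cmAV hθ hc hε hεc) := by
  have hl : ∀ x : E, Algebra.lmul ℚ E x = LinearMap.mulLeft ℚ x := fun _ => rfl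
  have hinj : Function.Injective (Algebra.lmul ℚ E) := Algebra.lmul_injective
  refine ⟨(Algebra.lmul ℚ E).range, ?_, ?_, ?_, ?_⟩
  · rintro s ⟨x, rfl⟩
    exact isHom_mul hθ hc hε hεc x
  · rintro s ⟨x, rfl⟩ t ⟨y, rfl⟩
    change Algebra.lmul ℚ E x * Algebra.lmul ℚ E y = Algebra.lmul ℚ E y * Algebra.lmul ℚ E x
    rw [← map_mul, ← map_mul, mul_comm]
  · rintro s ⟨x, rfl⟩ h
    have h1 : Algebra.lmul ℚ E (x * x) = Algebra.lmul ℚ E 0 := by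
      rw [map_mul, map_zero]
      exact h
    have h2 := hinj h1
    have h3 : x = 0 := mul_self_eq_zero.1 h2
    rw [h3]
    exact map_zero (Algebra.lmul ℚ E)
  · exact (LinearEquiv.finrank_eq (AlgEquiv.ofInjective (Algebra.lmul ℚ E) hinj).toLinearEquiv).symm

theorem wt_pos {θ : E} (hθ : ∀ φ φ' : E →ₐ[ℚ] ℂ, φ θ = φ' θ → φ = φ') {c : E →ₐ[ℚ] E}
    (hc : ∀ (φ : E →ₐ[ℚ] ℂ) (x : E), φ (c x) = starRingEnd ℂ (φ x)) {ε : (E →ₐ[ℚ] ℂ) → ℤ}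
    (hε : ∀ φ, ε φ = 1 ∨ ε φ = -1) (hεc : ∀ φ, ε (φ.comp c) = -ε φ) (φ : E →ₐ[ℚ] ℂ)
    (F : MultilinearMap ℚ (fun _ : Fin 1 => (cmAV hθ hc hε hεc).H) ℂ)
    (hF : ∀ v : Fin 1 → E, F v = φ (v 0)) : HasWeight (cmAV hθ hc hε hεc).per F (ε φ) := by
  rcases hε φ with h | h
  · refine ⟨MultilinearMap.ofSubsingleton ℝ (cmAV hθ hc hε hεc).T ℂ (0 : Fin 1)
      ((LinearMap.proj (⟨φ, h⟩ : {φ : E →ₐ[ℚ] ℂ // ε φ = 1}) : TT ε →ₗ[ℂ] ℂ).restrictScalars ℝ),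
      fun v => ?_, ?_⟩
    · rw [hF]
      rfl
    · intro z _ (u : Fin 1 → TT ε)
      change z * u 0 ⟨φ, h⟩ = z ^ (ε φ) * u 0 ⟨φ, h⟩
      rw [h, zpow_one]
  · have h' : ε (φ.comp c) = 1 := by
      rw [hεc, h]
      rfl
    refine ⟨MultilinearMap.ofSubsingleton ℝ (cmAV hθ hc hε hεc).T ℂ (0 : Fin 1)
      (Complex.conjAe.toLinearMap ∘ₗ ((LinearMap.proj (⟨φ.comp c, h'⟩ :
        {φ : E →ₐ[ℚ] ℂ // ε φ = 1}) : TT ε →ₗ[ℂ] ℂ).restrictScalars ℝ)), fun v => ?_, ?_⟩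
    · rw [hF]
      change starRingEnd ℂ ((φ.comp c) (v 0)) = φ (v 0)
      rw [AlgHom.comp_apply, hc, Complex.conj_conj]
    · intro z hz (u : Fin 1 → TT ε)
      change starRingEnd ℂ (z * u 0 ⟨φ.comp c, h'⟩) =
        z ^ (ε φ) * starRingEnd ℂ (u 0 ⟨φ.comp c, h'⟩)
      rw [map_mul, h, zpow_neg, zpow_one]
      congr 1
      rw [Complex.inv_def, Complex.normSq_eq_norm_sq, hz]
      simp

end

/-- Abelian varieties with complex multiplication of a given type; the coordinates are linearly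
independent over the complex numbers. -/
theorem cmb' (e : ℕ) (P : ℚ[X]) (hP : IsCMField e P) (ε : ℂ → ℤ) (hε : ∀ μ, ε μ = 1 ∨ ε μ = -1)
    (hεc : ∀ μ : ℂ, aeval μ P = 0 → ε (starRingEnd ℂ μ) = -ε μ) :
    ∃ (B : AV) (ψ : B.H →ₗ[ℚ] B.H) (γ : ℂ → (B.H →ₗ[ℚ] ℂ)), 2 * Module.finrank ℂ B.T = e ∧
      IsCM B ∧ IsHom B B ψ ∧ aeval ψ P = 0 ∧
      (∀ μ, aeval μ P = 0 → (∀ w, γ μ (ψ w) = μ * γ μ w) ∧
        (∀ (σ : ℂ ≃+* ℂ) (w : B.H), σ (γ μ w) = γ (σ μ) w) ∧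
        ∀ F : MultilinearMap ℚ (fun _ : Fin 1 => B.H) ℂ, (∀ v, F v = γ μ (v 0)) →
          HasWeight B.per F (ε μ)) ∧
      (∀ w, (∀ μ, aeval μ P = 0 → γ μ w = 0) → w = 0) ∧
      ∀ (R : Finset ℂ) (v : ℂ → ℂ), (∀ μ ∈ R, aeval μ P = 0) →
        (∀ w, ∑ μ ∈ R, v μ * γ μ w = 0) → ∀ μ ∈ R, v μ = 0 := by
  classical
  obtain ⟨hirr, hdeg, r, hr⟩ := hP
  have : Fact (Irreducible P) := ⟨hirr⟩
  have hP0 : P ≠ 0 := hirr.ne_zero
  have hfd : FiniteDimensional ℚ (AdjoinRoot P) := (AdjoinRoot.powerBasis hP0).finite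
  have hfr : Module.finrank ℚ (AdjoinRoot P) = e := by
    rw [(AdjoinRoot.powerBasis hP0).finrank, ← hdeg]
    rfl
  obtain ⟨θ, hθd⟩ : ∃ θ : AdjoinRoot P, θ = AdjoinRoot.root P := ⟨_, rfl⟩
  have hθP : aeval θ P = 0 := by
    rw [hθd]
    exact (AdjoinRoot.aeval_eq P).trans AdjoinRoot.mk_self
  have hθ : ∀ φ φ' : AdjoinRoot P →ₐ[ℚ] ℂ, φ θ = φ' θ → φ = φ' := by
    intro φ φ' h
    rw [hθd] at h
    exact AdjoinRoot.algHom_ext h
  have hroot : ∀ φ : AdjoinRoot P →ₐ[ℚ] ℂ, aeval (φ θ) P = 0 := by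
    intro φ
    rw [aeval_algHom_apply, hθP, map_zero]
  -- an embedding
  have hne : Nonempty (AdjoinRoot P →ₐ[ℚ] ℂ) := by
    rw [← Fintype.card_pos_iff, AlgHom.card ℚ (AdjoinRoot P) ℂ]
    exact Module.finrank_pos
  obtain ⟨φ0⟩ := hne
  have hrP : aeval (aeval θ r) P = 0 := by
    apply φ0.toRingHom.injective
    change φ0 (aeval (aeval θ r) P) = φ0 0
    rw [map_zero, ← aeval_algHom_apply, ← aeval_algHom_apply, ← (hr _ (hroot φ0)).2]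
    have h1 : aeval (starRingEnd ℂ (φ0 θ)) P = starRingEnd ℂ (aeval (φ0 θ) P) := by
      exact aeval_algHom_apply (starRingEnd ℂ).toRatAlgHom (φ0 θ) P
    rw [h1, hroot φ0, map_zero]
  have hlift : ∀ {S : Type} [Field S] [Algebra ℚ S] (x : S), aeval x P = 0 →
      ∃ f : AdjoinRoot P →ₐ[ℚ] S, f θ = x := by
    intro S _ _ x hx
    rw [hθd]
    exact ⟨AdjoinRoot.liftAlgHom P (Algebra.ofId ℚ S) x hx, AdjoinRoot.liftAlgHom_root _ _ _ _⟩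
  obtain ⟨c, hcθ⟩ := hlift (aeval θ r) hrP
  have hc : ∀ (φ : AdjoinRoot P →ₐ[ℚ] ℂ) (x : AdjoinRoot P), φ (c x) = starRingEnd ℂ (φ x) := by
    intro φ x
    have h1 : φ.comp c = ((starRingEnd ℂ).toRatAlgHom).comp φ := by
      apply hθ
      rw [AlgHom.comp_apply, AlgHom.comp_apply, hcθ, ← aeval_algHom_apply]
      exact ((hr _ (hroot φ)).2).symm
    exact DFunLike.congr_fun h1 x
  obtain ⟨ε', hε'⟩ : ∃ ε' : (AdjoinRoot P →ₐ[ℚ] ℂ) → ℤ, ∀ φ, ε' φ = ε (φ θ) :=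
    ⟨fun φ => ε (φ θ), fun _ => rfl⟩
  have h1 : ∀ φ, ε' φ = 1 ∨ ε' φ = -1 := by
    intro φ
    rw [hε']
    exact hε _
  have h2 : ∀ φ, ε' (φ.comp c) = -ε' φ := by
    intro φ
    rw [hε', hε', AlgHom.comp_apply, hc]
    exact hεc _ (hroot φ)
  -- the coordinates
  have hγ : ∀ μ : ℂ, ∃ g : AdjoinRoot P →ₗ[ℚ] ℂ, aeval μ P = 0 →
      ∃ φ : AdjoinRoot P →ₐ[ℚ] ℂ, φ θ = μ ∧ ∀ w, g w = φ w := by
    intro μ
    by_cases h : aeval μ P = 0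
    · obtain ⟨φ, hφ⟩ := hlift μ h
      exact ⟨φ.toLinearMap, fun _ => ⟨φ, hφ, fun _ => rfl⟩⟩
    · exact ⟨0, fun h' => absurd h' h⟩
  choose γ hγ using hγ
  refine ⟨cmAV hθ hc h1 h2, LinearMap.mulLeft ℚ θ, γ, ?_, isCM_cmAV hθ hc h1 h2,
    isHom_mul hθ hc h1 h2 θ, ?_, ?_, ?_, ?_⟩
  · rw [← (cmAV hθ hc h1 h2).dim]
    exact hfr
  · have h3 : aeval (Algebra.lmul ℚ (AdjoinRoot P) θ) P = Algebra.lmul ℚ (AdjoinRoot P) (aeval θ P) :=
      aeval_algHom_apply _ _ _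
    rw [hθP, map_zero] at h3
    exact h3
  · intro μ hμ
    obtain ⟨φ, hφ, hg⟩ := hγ μ hμ
    refine ⟨fun (w : AdjoinRoot P) => ?_, fun σ (w : AdjoinRoot P) => ?_, fun F hF => ?_⟩
    · change γ μ (θ * w) = μ * γ μ w
      rw [hg, hg, map_mul, hφ]
    · have hσμ : aeval (σ μ) P = 0 := by
        have h3 : aeval (σ μ) P = σ (aeval μ P) :=
          aeval_algHom_apply (σ : ℂ →+* ℂ).toRatAlgHom μ P
        rw [h3, hμ, map_zero]
      obtain ⟨φ', hφ', hg'⟩ := hγ (σ μ) hσμ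
      have h3 : φ' = ((σ : ℂ →+* ℂ).toRatAlgHom).comp φ := by
        apply hθ
        rw [hφ', AlgHom.comp_apply, hφ]
        rfl
      have h4 : σ (φ w) = φ' w := by
        rw [h3]
        rfl
      exact (congrArg σ (hg w)).trans (h4.trans (hg' w).symm)
    · have h3 : ε μ = ε' φ := by rw [hε', hφ]
      rw [h3]
      exact wt_pos hθ hc h1 h2 φ F fun v => (hF v).trans (hg (v 0))
  · intro (w : AdjoinRoot P) hw
    obtain ⟨φ, hφ, hg⟩ := hγ (φ0 θ) (hroot φ0)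
    have h3 : φ w = 0 := (hg w).symm.trans (hw (φ0 θ) (hroot φ0))
    exact φ.toRingHom.injective (by
      change φ w = φ 0
      rw [h3, map_zero])
  · intro R v hR hv μ hμ
    choose Φ hΦ hΦg using fun x : R => hγ x.1 (hR x.1 x.2)
    have hinj : Function.Injective fun x : R => ((Φ x : AdjoinRoot P →* ℂ)) := by
      intro x y h
      have h3 : Φ x θ = Φ y θ := DFunLike.congr_fun h θ
      rw [hΦ, hΦ] at h3
      exact Subtype.ext h3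
    have hli : LinearIndependent ℂ fun x : R => ((Φ x : AdjoinRoot P →* ℂ) : AdjoinRoot P → ℂ) :=
      (linearIndependent_monoidHom (AdjoinRoot P) ℂ).comp _ hinj
    rw [Fintype.linearIndependent_iff] at hli
    refine hli (fun x => v x.1) ?_ ⟨μ, hμ⟩
    funext (w : AdjoinRoot P)
    rw [Finset.sum_apply]
    have h3 := hv w
    rw [← Finset.sum_coe_sort] at h3
    refine (Finset.sum_congr rfl fun x _ => ?_).trans h3
    change v x.1 * Φ x w = v x.1 * γ x.1 w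
    exact congrArg (v x.1 * ·) (hΦg x w).symm

/-- **Job UCMB.** -/
theorem cmb : S_cmb := by
  intro e P hP ε hε hεc
  obtain ⟨B, ψ, γ, h1, h2, h3, h4, h5, h6, -⟩ := cmb' e P hP ε hε hεc
  exact ⟨B, ψ, γ, h1, h2, h3, h4, h5, h6⟩

end Pool.Agent.Q84.UW
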